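import Pool.Agent.K1H14.SD.Stm4
import Pool.Agent.K1H25.SD.Nil

set_option autoImplicit false

/-! Project SD: `S_DEC`. -/

namespace Pool.Agent.K1H36.SD

open Pool.Agent.K1H14.SD Pool.Agent.K1H14.KS

universe u

theorem t_DEC : S_DEC.{u} := by
  intro A _ _ n f x a μ hx ha hneg hK v
  have hxx : ∀ y : A, x * (x * y) = μ • y := by
    intro y
    rw [← mul_assoc, hx, smul_mul_assoc, one_mul]
  by_cases hμ : μ = 0
  · -- nilpotent case
    have ha2 : (a - 1) * (a + 1) = 0 := by
      have : a * a = 1 := by rw [hμ, sub_zero] at ha; exact ha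
      linear_combination this
    have hK' : Kills (LinearMap.mulLeft ℂ (-x)) f := by
      intro w
      have h0 := hK w
      have h1 : ∀ i, f (Function.update w i (LinearMap.mulLeft ℂ (-x) (w i)))
          = - f (Function.update w i (LinearMap.mulLeft ℂ x (w i))) := by
        intro i
        have e : LinearMap.mulLeft ℂ (-x) (w i) = (-1 : ℂ) • LinearMap.mulLeft ℂ x (w i) := by
          simp [LinearMap.mulLeft_apply]
        rw [e, MultilinearMap.map_update_smul]
        simp
      rw [Finset.sum_congr rfl fun i _ => h1 i, Finset.sum_neg_distrib, h0, neg_zero]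
    rcases mul_eq_zero.mp ha2 with h | h
    · have ha1 : a = 1 := by linear_combination h
      have hD : ∀ y : A, LinearMap.mulLeft ℂ x (LinearMap.mulLeft ℂ x y) = 0 := by
        intro y
        simp only [LinearMap.mulLeft_apply]
        rw [hxx, hμ, zero_smul]
      have := Pool.Agent.K1H25.SD.t_NIL n (LinearMap.mulLeft ℂ x) f hD hK v
      rw [← this]
      congr 1
      funext i
      simp only [LinearMap.mulLeft_apply, LinearMap.add_apply, LinearMap.id_apply]
      rw [ha1, one_smul, add_mul, one_mul]
    · have ha1 : a = -1 := by linear_combination h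
      have hD : ∀ y : A, LinearMap.mulLeft ℂ (-x) (LinearMap.mulLeft ℂ (-x) y) = 0 := by
        intro y
        simp only [LinearMap.mulLeft_apply]
        rw [neg_mul, neg_mul, mul_neg, neg_neg, hxx, hμ, zero_smul]
      have := Pool.Agent.K1H25.SD.t_NIL n (LinearMap.mulLeft ℂ (-x)) f hD hK' v
      rw [← this, ← hneg]
      congr 1
      funext i
      simp only [LinearMap.mulLeft_apply, LinearMap.add_apply, LinearMap.id_apply]
      rw [ha1, neg_smul, one_smul, add_mul, neg_mul, one_mul, neg_add, neg_neg, neg_mul]
  · -- semisimple case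
    obtain ⟨ρ, hρ⟩ : ∃ ρ : ℂ, ρ ^ 2 = μ := IsAlgClosed.exists_pow_nat_eq μ (by norm_num)
    have hρ0 : ρ ≠ 0 := by
      rintro rfl
      apply hμ
      rw [← hρ]
      norm_num
    have hll : (a + ρ) * (a - ρ) = 1 := by
      rw [← ha, ← hρ]
      ring
    obtain ⟨p, hp⟩ : ∃ p : Fin n → A, p = fun i => (1 / 2 : ℂ) • (v i + ρ⁻¹ • (x * v i)) := ⟨_, rfl⟩
    obtain ⟨m, hm⟩ : ∃ m : Fin n → A, m = fun i => (1 / 2 : ℂ) • (v i - ρ⁻¹ • (x * v i)) := ⟨_, rfl⟩
    have hv : v = p + m := by
      funext i
      rw [Pi.add_apply, hp, hm]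
      simp only
      match_scalars <;> ring
    have hxp : ∀ i, x * p i = ρ • p i := by
      intro i
      rw [hp]
      simp only
      rw [mul_smul_comm, mul_add, mul_smul_comm, hxx, ← hρ]
      match_scalars <;> field_simp
    have hxm : ∀ i, x * m i = (-ρ) • m i := by
      intro i
      rw [hm]
      simp only
      rw [mul_smul_comm, mul_sub, mul_smul_comm, hxx, ← hρ]
      match_scalars <;> field_simp
    have key : ∀ S : Finset (Fin n),
        f (S.piecewise (fun i => (a • (1 : A) + x) * p i) fun i => (a • (1 : A) + x) * m i)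
          = f (S.piecewise p m) := by
      intro S
      obtain ⟨w, hw⟩ : ∃ w, w = S.piecewise p m := ⟨_, rfl⟩
      have h1 : (S.piecewise (fun i => (a • (1 : A) + x) * p i) fun i => (a • (1 : A) + x) * m i)
          = fun i => (if i ∈ S then a + ρ else a - ρ) • w i := by
        funext i
        rw [hw]
        by_cases hi : i ∈ S
        · rw [Finset.piecewise_eq_of_mem _ _ _ hi, Finset.piecewise_eq_of_mem _ _ _ hi, if_pos hi,
            add_mul, smul_mul_assoc, one_mul, hxp, add_smul]
        · rw [Finset.piecewise_eq_of_notMem _ _ _ hi, Finset.piecewise_eq_of_notMem _ _ _ hi,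
            if_neg hi, add_mul, smul_mul_assoc, one_mul, hxm, sub_smul, neg_smul, sub_eq_add_neg]
      rw [h1, ← hw, MultilinearMap.map_smul_univ]
      have h2 : ∑ i : Fin n, (if i ∈ S then ρ else -ρ) * f w = 0 := by
        rw [← hK w]
        refine Finset.sum_congr rfl fun i _ => ?_
        have e : LinearMap.mulLeft ℂ x (w i) = (if i ∈ S then ρ else -ρ) • w i := by
          rw [LinearMap.mulLeft_apply, hw]
          by_cases hi : i ∈ S
          · rw [Finset.piecewise_eq_of_mem _ _ _ hi, if_pos hi, hxp]
          · rw [Finset.piecewise_eq_of_notMem _ _ _ hi, if_neg hi, hxm]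
        rw [e, MultilinearMap.map_update_smul, Function.update_eq_self, smul_eq_mul]
      have h3 : ∑ i : Fin n, (if i ∈ S then ρ else -ρ)
          = ρ * ((S.card : ℂ) - ((Finset.univ.filter fun i => i ∉ S).card : ℂ)) := by
        rw [Finset.sum_ite, Finset.sum_const, Finset.sum_const, Finset.filter_mem_eq_inter,
          Finset.univ_inter, nsmul_eq_mul, nsmul_eq_mul]
        ring
      have h4 : ∏ i : Fin n, (if i ∈ S then a + ρ else a - ρ)
          = (a + ρ) ^ S.card * (a - ρ) ^ (Finset.univ.filter fun i => i ∉ S).card := by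
        rw [Finset.prod_ite, Finset.prod_const, Finset.prod_const, Finset.filter_mem_eq_inter,
          Finset.univ_inter]
      rw [← Finset.sum_mul, h3] at h2
      rw [h4]
      by_cases hc : S.card = (Finset.univ.filter fun i => i ∉ S).card
      · rw [← hc, ← mul_pow, hll, one_pow, one_smul]
      · have h5 : ((S.card : ℂ) - ((Finset.univ.filter fun i => i ∉ S).card : ℂ)) ≠ 0 := by
          intro h
          apply hc
          have : (S.card : ℂ) = ((Finset.univ.filter fun i => i ∉ S).card : ℂ) :=
            sub_eq_zero.mp h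
          exact_mod_cast this
        have h6 : f w = 0 := by
          rcases mul_eq_zero.mp h2 with h | h
          · exact absurd h (mul_ne_zero hρ0 h5)
          · exact h
        rw [h6, smul_zero]
    have e1 : (fun i => LinearMap.mulLeft ℂ (a • (1 : A) + x) (v i))
        = (fun i => (a • (1 : A) + x) * p i) + fun i => (a • (1 : A) + x) * m i := by
      funext i
      rw [Pi.add_apply, LinearMap.mulLeft_apply, ← mul_add]
      congr 1
      rw [hv, Pi.add_apply]
    rw [e1, MultilinearMap.map_add_univ]
    conv_rhs => rw [hv, MultilinearMap.map_add_univ]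
    exact Finset.sum_congr rfl fun S _ => key S

end Pool.Agent.K1H36.SD
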